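import Pool.Agent.Helper51.SDL.Goals
import Pool.Agent.Helper8.REC.LLOW
import Pool.Agent.Helper53.REC.LUPP

/-!
# SDL-DEN: an element which is locally a `p`-th power at almost all the primes which have a prime of
degree one above them in `L` is a `p`-th power in `L`
-/

set_option autoImplicit false

namespace Pool.Agent.Helper31.SDL.DEN

open NumberField Module IsDedekindDomain
open Pool.Agent.Helper38.RS (pz)
open Pool.Agent.Helper51.RP (LocPow Pw Above)
open Pool.Agent.Helper40.RS (bel)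
open Pool.Agent.Helper40.RD (valW)
open Pool.Agent.Helper99.RS (pz_mono pz_union pz_finite pz_eq summable_norm finite_bad)
open Pool.Agent.Helper8.REC (psmE)

theorem absNorm_bel_eq {F E : Type} [Field F] [NumberField F] [Field E] [NumberField E]
    [Algebra F E] (w : HeightOneSpectrum (𝓞 E)) (hp : (Ideal.absNorm w.asIdeal).Prime) :
    Ideal.absNorm w.asIdeal = Ideal.absNorm (bel F w).asIdeal := by
  have hv : (bel F w).asIdeal.IsMaximal := (bel F w).isMaximal
  have hw : w.asIdeal.IsMaximal := w.isMaximal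
  have hl : w.asIdeal.LiesOver (bel F w).asIdeal := inferInstance
  let _ : Field (𝓞 F ⧸ (bel F w).asIdeal) := Ideal.Quotient.field _
  have hfin : Finite (𝓞 E ⧸ w.asIdeal) := inferInstance
  have h1 : Ideal.absNorm (bel F w).asIdeal ∣ Ideal.absNorm w.asIdeal := by
    rw [Ideal.absNorm_apply, Ideal.absNorm_apply, Submodule.cardQuot_apply,
      Submodule.cardQuot_apply]
    exact AddSubgroup.card_dvd_of_injective
      ((algebraMap (𝓞 F ⧸ (bel F w).asIdeal) (𝓞 E ⧸ w.asIdeal) :
        (𝓞 F ⧸ (bel F w).asIdeal) →+* (𝓞 E ⧸ w.asIdeal)) :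
        (𝓞 F ⧸ (bel F w).asIdeal) →+ (𝓞 E ⧸ w.asIdeal)) (RingHom.injective _)
  rcases (Nat.dvd_prime hp).1 h1 with h | h
  · exfalso
    rw [Ideal.absNorm_eq_one_iff] at h
    exact hv.ne_top h
  · exact h.symm

theorem t : Pool.Agent.Helper51.SDL.S_DEN := by
  classical
  intro p hpf F L _ _ _ _ _ ε hε Z hZ β hβ
  have hp : p.Prime := hpf.out
  by_contra hcon
  have hinj : Function.Injective (algebraMap F L) := (algebraMap F L).injective
  set y0 : Lˣ := Units.map (algebraMap F L : F →* L) β with hy0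
  have hy0v : (y0 : L) = algebraMap F L (β : F) := rfl
  obtain ⟨C, hC⟩ := Pool.Agent.Helper53.REC.l_upp p 1 L (algebraMap F L ε)
    (hε.map_of_injective hinj) (fun _ => y0) (by
      intro a ha i
      by_contra hpa
      have hi : i = 0 := Subsingleton.elim _ _
      subst hi
      rw [Fin.prod_univ_one] at ha
      obtain ⟨z, hz⟩ := ha
      have hcop : Nat.Coprime p (a 0) := (Nat.Prime.coprime_iff_not_dvd hp).2 hpa
      have hbez := Nat.gcd_eq_gcd_ab p (a 0)
      rw [Nat.Coprime.gcd_eq_one hcop, Nat.cast_one] at hbez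
      apply hcon
      refine ⟨((y0 ^ (Nat.gcdA p (a 0)) * z ^ (Nat.gcdB p (a 0)) : Lˣ) : L), ?_⟩
      rw [← Units.val_pow_eq_pow_val, ← hy0v]
      congr 1
      rw [mul_pow, ← zpow_natCast (y0 ^ (Nat.gcdA p (a 0))) p, ← zpow_mul,
        ← zpow_natCast (z ^ (Nat.gcdB p (a 0))) p, ← zpow_mul, mul_comm (Nat.gcdB p (a 0)) (p : ℤ),
        zpow_mul z, zpow_natCast z p, ← hz, ← zpow_natCast y0 (a 0), ← zpow_mul, ← zpow_add,
        mul_comm (Nat.gcdA p (a 0)) (p : ℤ), ← hbez, zpow_one])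
  obtain ⟨C₁, hC₁⟩ := psmE L
  obtain ⟨C₂, hC₂⟩ := Pool.Agent.Helper88.RS.s_dg1 L
  have hpE : (p : L) ≠ 0 := Nat.cast_ne_zero.2 hp.ne_zero
  have hz : ∀ v : HeightOneSpectrum (𝓞 F), ∃ a : 𝓞 F, a ∈ v.asIdeal ∧ a ≠ 0 := by
    intro v
    obtain ⟨a, ha, ha0⟩ := (Submodule.ne_bot_iff _).1 v.ne_bot
    exact ⟨a, ha, ha0⟩
  choose a ha ha0 using hz
  have haE : ∀ v, algebraMap F L (a v : F) ≠ 0 := by
    intro v h
    have h1 := (map_eq_zero (algebraMap F L)).1 h
    exact ha0 v (RingOfIntegers.coe_eq_zero_iff.1 h1)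
  set R : Set (HeightOneSpectrum (𝓞 L)) :=
    {w | w.valuation L (p : L) ≠ 1} ∪
      ⋃ v ∈ Z, {w | w.valuation L (algebraMap F L (a v : F)) ≠ 1} with hR
  have hRfin : R.Finite := by
    refine Set.Finite.union (finite_bad hpE) ?_
    exact Set.Finite.biUnion hZ fun v _ => finite_bad (haE v)
  set P : Set (HeightOneSpectrum (𝓞 L)) := {w | ¬ (Ideal.absNorm w.asIdeal).Prime} with hP
  set A : Set (HeightOneSpectrum (𝓞 L)) := {v : HeightOneSpectrum (𝓞 L) |
        v.valuation L (p : L) = 1 ∧ ∀ i : Fin 1, LocPow p v (y0 : L)} with hA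
  have hW : (R ∪ P)ᶜ ⊆ A := by
    intro w hw
    rw [Set.mem_compl_iff, Set.mem_union, not_or] at hw
    obtain ⟨hw1, hw2⟩ := hw
    rw [hR, Set.mem_union, not_or] at hw1
    obtain ⟨hwp, hwz⟩ := hw1
    have hpr : (Ideal.absNorm w.asIdeal).Prime := by
      by_contra h
      exact hw2 h
    have hwp' : w.valuation L (p : L) = 1 := by
      by_contra h
      exact hwp h
    have he : (bel F w).asIdeal.ramificationIdx' w.asIdeal ≠ 0 :=
      Ideal.IsDedekindDomain.ramificationIdx'_ne_zero_of_liesOver _ (bel F w).ne_bot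
    have hbz : bel F w ∉ Z := by
      intro hbz
      apply hwz
      refine Set.mem_biUnion hbz ?_
      show w.valuation L (algebraMap F L (a (bel F w) : F)) ≠ 1
      rw [valW]
      have h1 : (bel F w).valuation F (a (bel F w) : F) < 1 :=
        ((bel F w).valuation_lt_one_iff_mem (K := F) (a (bel F w))).2 (ha _)
      exact (pow_lt_one₀ zero_le h1 he).ne
    have hbp : (bel F w).valuation F (p : F) = 1 := by
      have h1 : w.valuation L (algebraMap F L (p : F)) = 1 := by
        rw [map_natCast]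
        exact hwp'
      rw [valW] at h1
      exact (pow_eq_one_iff_of_nonneg zero_le he).1 h1
    obtain ⟨y, hy⟩ := hβ (bel F w) hbz hbp ⟨w, rfl, absNorm_bel_eq w hpr⟩
    refine ⟨hwp', fun _ => ⟨algebraMap F L y, ?_⟩⟩
    rw [hy0v, ← map_pow, ← map_mul, ← map_one (algebraMap F L), ← map_sub, valW]
    exact pow_lt_one₀ zero_le hy he
  have key : ∀ s : ℝ, 1 < s → s ≤ 2 →
      Real.log (1 / (s - 1)) * (1 - 1 / (p : ℝ)) ≤ C + C₁ + C₂ + hRfin.toFinset.card := by
    intro s hs1 hs2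
    have e0 := hC s hs1 hs2
    rw [pow_one] at e0
    have e1 := (abs_le.1 (hC₁ s hs1 hs2)).1
    have e2 := hC₂ s hs1 hs2
    have e3 : pz (Set.univ : Set (HeightOneSpectrum (𝓞 L))) s ≤
        pz (R ∪ P) s + pz (R ∪ P)ᶜ s := by
      have h1 := pz_union (R ∪ P) (R ∪ P)ᶜ s hs1
      rwa [Set.union_compl_self] at h1
    have e4 := pz_union R P s hs1
    have e5 := pz_finite hRfin s hs1
    have e6 := pz_mono hW s hs1
    have e7 : pz A s ≤ 1 / (p : ℝ) * Real.log (1 / (s - 1)) + C := e0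
    linarith
  set T : ℝ := 2 * |C + C₁ + C₂ + hRfin.toFinset.card| + 1 with hT
  have hTpos : 0 < T := by positivity
  have h1 := key (1 + Real.exp (-T)) (by linarith [Real.exp_pos (-T)]) (by
    have : Real.exp (-T) ≤ 1 := Real.exp_le_one_iff.2 (by linarith)
    linarith)
  rw [add_sub_cancel_left, one_div, ← Real.exp_neg, neg_neg, Real.log_exp] at h1
  have hp2 : (2 : ℝ) ≤ p := by exact_mod_cast hp.two_le
  have h2 : 1 / (p : ℝ) ≤ 1 / 2 := one_div_le_one_div_of_le (by norm_num) hp2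
  have h3 : T * (1 / 2) ≤ T * (1 - 1 / (p : ℝ)) := by
    apply mul_le_mul_of_nonneg_left _ hTpos.le
    linarith
  have h4 := le_abs_self (C + C₁ + C₂ + hRfin.toFinset.card)
  linarith

end Pool.Agent.Helper31.SDL.DEN
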